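import Pool.Agent.N356.SP.DefsK
import Pool.Agent.N169.LS.KS3

set_option autoImplicit false

/-! GK7b: the class inequality in `L^{2k}` (project LK), from the recursion for the moments. -/

namespace Pool.Agent.N67.LK

open Finset Pool.Agent.H384R3.SPk Pool.Agent.N356.SP

theorem lam_zero : lam 0 = 1 := by simp [lam]

theorem lam_succ (k : ℕ) : ((k:ℝ) + 1) * lam (k + 1) = (2 * (k:ℝ) + 1) * lam k := by
  have h := Nat.succ_mul_centralBinom_succ k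
  rw [Nat.centralBinom_eq_two_mul_choose, Nat.centralBinom_eq_two_mul_choose] at h
  have h' : ((k:ℝ) + 1) * ((2 * (k + 1)).choose (k + 1) : ℝ) =
      2 * (2 * (k:ℝ) + 1) * ((2 * k).choose k : ℝ) := by exact_mod_cast h
  unfold lam
  rw [pow_succ]
  field_simp
  linear_combination h'

theorem lam_one : lam 1 = 1 := by
  have h := lam_succ 0
  rw [lam_zero] at h
  norm_num at h
  exact h

section Abs

variable {Γ R : Type*} [AddCommGroup Γ] [CommRing R] [Algebra ℝ R] {K : Cone Γ R}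
  {L : R →ₗ[ℝ] ℝ} {C : Finset Γ} {θ : Γ → Γ → ℝ} {φ : Γ → R}

theorem pK_zero (μ t : R) : pK 0 μ t = 1 := by
  simp [pK, lam_zero]

theorem pK_one (μ t : R) : pK 1 μ t = μ := by
  simp [pK, lam_zero]

/-- the error in the class inequality -/
noncomputable def Er (C : Finset Γ) (θ : Γ → Γ → ℝ) (φ : Γ → R) (k : ℕ) : R :=
  fA C φ ^ (2 * k) - lam k • pK k (muA C φ) ((16 / 81 : ℝ) • wA C θ φ)

theorem step (hpK : ∀ k : ℕ, 1 ≤ k → ∀ μ t : R, ((k:ℝ) + 1) • pK (k + 1) μ t =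
      (2 * (k:ℝ) + 1) • (μ * pK k μ t) - (k:ℝ) • ((μ ^ 2 - (2:ℝ) • t) * pK (k - 1) μ t))
    (hrec : ∀ L : R →ₗ[ℝ] ℝ, IsFun K L → ∀ k : ℕ, 1 ≤ k → OrdC (k + 1) C →
      0 ≤ L (fA C φ ^ (2 * k + 2)) -
        (2 * (k:ℝ) + 1) ^ 2 / ((k:ℝ) + 1) ^ 2 * L (muA C φ * fA C φ ^ (2 * k)) +
        (2 * (k:ℝ) + 1) * (2 * k - 1) / ((k:ℝ) + 1) ^ 2 * L (muA C φ ^ 2 * fA C φ ^ (2 * k - 2)) -
        32 / 81 * ((2 * (k:ℝ) + 1) * (2 * k - 1) / ((k:ℝ) + 1) ^ 2) *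
          L (wA C θ φ * fA C φ ^ (2 * k - 2)))
    (hL : IsFun K L) {k : ℕ} (ho : OrdC (k + 2) C) :
    (2 * (k:ℝ) + 3) ^ 2 / ((k:ℝ) + 2) ^ 2 * L (muA C φ * Er C θ φ (k + 1)) -
        (2 * (k:ℝ) + 3) * (2 * k + 1) / ((k:ℝ) + 2) ^ 2 * L (muA C φ ^ 2 * Er C θ φ k) +
        32 / 81 * ((2 * (k:ℝ) + 3) * (2 * k + 1) / ((k:ℝ) + 2) ^ 2) *
          L (wA C θ φ * Er C θ φ k) ≤ L (Er C θ φ (k + 2)) := by
  have h1 := hrec L hL (k + 1) (by omega) ho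
  have h2 := hpK (k + 1) (by omega) (muA C φ) ((16 / 81 : ℝ) • wA C θ φ)
  have e1 : 2 * (k + 1) + 2 = 2 * (k + 2) := by ring
  have e2 : 2 * (k + 1) - 2 = 2 * k := by omega
  have e3 : k + 1 - 1 = k := by omega
  rw [e1, e2] at h1
  rw [e3] at h2
  have hl1 := lam_succ k
  have hl2 := lam_succ (k + 1)
  push_cast at h1 h2 hl2
  have hk1 : ((k:ℝ) + 1) ≠ 0 := by positivity
  have hk2 : ((k:ℝ) + 2) ≠ 0 := by positivity
  have h3 := congrArg L h2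
  simp only [map_sub, map_smul, sub_mul, smul_mul_assoc, smul_eq_mul] at h3
  unfold Er
  simp only [map_sub, map_smul, mul_sub, mul_smul_comm, smul_eq_mul]
  have hl1' : lam (k + 1) = (2 * (k:ℝ) + 1) / ((k:ℝ) + 1) * lam k := by
    field_simp
    linear_combination hl1
  have hl2' : lam (k + 2) = (2 * (k:ℝ) + 3) / ((k:ℝ) + 2) * lam (k + 1) := by
    field_simp
    linear_combination hl2
  have h4 : lam (k + 2) * L (pK (k + 2) (muA C φ) ((16 / 81 : ℝ) • wA C θ φ)) =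
      (2 * (k:ℝ) + 3) ^ 2 / ((k:ℝ) + 2) ^ 2 *
          (lam (k + 1) * L (muA C φ * pK (k + 1) (muA C φ) ((16 / 81 : ℝ) • wA C θ φ))) -
        (2 * (k:ℝ) + 3) * (2 * k + 1) / ((k:ℝ) + 2) ^ 2 *
          (lam k * L (muA C φ ^ 2 * pK k (muA C φ) ((16 / 81 : ℝ) • wA C θ φ))) +
        32 / 81 * ((2 * (k:ℝ) + 3) * (2 * k + 1) / ((k:ℝ) + 2) ^ 2) *
          (lam k * L (wA C θ φ * pK k (muA C φ) ((16 / 81 : ℝ) • wA C θ φ))) := by
    have h5 : L (pK (k + 2) (muA C φ) ((16 / 81 : ℝ) • wA C θ φ)) =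
        ((2 * (k:ℝ) + 3) * L (muA C φ * pK (k + 1) (muA C φ) ((16 / 81 : ℝ) • wA C θ φ)) -
          ((k:ℝ) + 1) * (L (muA C φ ^ 2 * pK k (muA C φ) ((16 / 81 : ℝ) • wA C θ φ)) -
            2 * (16 / 81 * L (wA C θ φ * pK k (muA C φ) ((16 / 81 : ℝ) • wA C θ φ))))) /
          ((k:ℝ) + 2) := by
      rw [eq_div_iff hk2]
      have h6 : (k:ℝ) + 1 + 1 = (k:ℝ) + 2 := by ring
      linear_combination h3
    rw [h5, hl2', hl1']
    field_simp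
    ring
  rw [h4]
  have h7 : (2 * ((k:ℝ) + 1) + 1) = 2 * (k:ℝ) + 3 := by ring
  have h8 : (k:ℝ) + 1 + 1 = (k:ℝ) + 2 := by ring
  have h9 : (2 * ((k:ℝ) + 1) - 1) = 2 * (k:ℝ) + 1 := by ring
  rw [h7, h8, h9] at h1
  linear_combination h1

theorem main (hpK : ∀ k : ℕ, 1 ≤ k → ∀ μ t : R, ((k:ℝ) + 1) • pK (k + 1) μ t =
      (2 * (k:ℝ) + 1) • (μ * pK k μ t) - (k:ℝ) • ((μ ^ 2 - (2:ℝ) • t) * pK (k - 1) μ t))
    (hrec : ∀ L : R →ₗ[ℝ] ℝ, IsFun K L → ∀ k : ℕ, 1 ≤ k → OrdC (k + 1) C →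
      0 ≤ L (fA C φ ^ (2 * k + 2)) -
        (2 * (k:ℝ) + 1) ^ 2 / ((k:ℝ) + 1) ^ 2 * L (muA C φ * fA C φ ^ (2 * k)) +
        (2 * (k:ℝ) + 1) * (2 * k - 1) / ((k:ℝ) + 1) ^ 2 * L (muA C φ ^ 2 * fA C φ ^ (2 * k - 2)) -
        32 / 81 * ((2 * (k:ℝ) + 1) * (2 * k - 1) / ((k:ℝ) + 1) ^ 2) *
          L (wA C θ φ * fA C φ ^ (2 * k - 2)))
    (h : GoodC C θ) (hφ : ∀ c, φ c ∈ K.P c) (k : ℕ) :
    OrdC (k + 1) C → ∀ L : R →ₗ[ℝ] ℝ, IsFun K L →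
      0 ≤ L (Er C θ φ k) ∧
        (2 * (k:ℝ) + 1) / ((k:ℝ) + 1) * L (muA C φ * Er C θ φ k) ≤ L (Er C θ φ (k + 1)) := by
  induction k with
  | zero =>
    intro _ L hL
    have h0 : Er C θ φ 0 = 0 := by
      unfold Er
      rw [pK_zero, lam_zero, one_smul, mul_zero, pow_zero, sub_self]
    have h1 : Er C θ φ (0 + 1) = UA C φ := by
      unfold Er
      rw [zero_add, pK_one, lam_one, one_smul, mul_one, Pool.Agent.N169.LS.fA_sq h.neg,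
        add_sub_cancel_left]
    rw [h0, h1, mul_zero, map_zero, mul_zero, Pool.Agent.N169.LS.L_U hL hφ]
    exact ⟨le_refl _, le_refl _⟩
  | succ k ih =>
    intro ho L hL
    have ho' : OrdC (k + 1) C := fun s hs i hi hi2 => ho s hs i hi (by omega)
    have hμ := Pool.Agent.N169.LS.muA_mem (C := C) hφ
    have hw := Pool.Agent.N169.LS.wA_mem (C := C) (θ := θ) hφ h.nn
    have hLμ := Pool.Agent.N169.LS.isFun_mul hL hμ
    have hLw := Pool.Agent.N169.LS.isFun_mul hL hw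
    obtain ⟨_, a2⟩ := ih ho' L hL
    obtain ⟨b1, b2⟩ := ih ho' _ hLμ
    obtain ⟨c1, _⟩ := ih ho' _ hLw
    simp only [LinearMap.coe_comp, Function.comp_apply, LinearMap.mulLeft_apply] at b1 b2 c1
    have hs := step hpK hrec hL ho
    rw [← mul_assoc, ← sq] at b2
    refine ⟨le_trans (by positivity) a2, ?_⟩
    have hk1 : (0:ℝ) < (k:ℝ) + 1 := by positivity
    have hk2 : (0:ℝ) < (k:ℝ) + 2 := by positivity
    have d1 : 0 ≤ ((k:ℝ) + 1) * (2 * k + 3) / ((k:ℝ) + 2) ^ 2 *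
        (L (muA C φ * Er C θ φ (k + 1)) -
          (2 * (k:ℝ) + 1) / ((k:ℝ) + 1) * L (muA C φ ^ 2 * Er C θ φ k)) := by
      apply mul_nonneg (by positivity)
      linarith
    have d2 : 0 ≤ 32 / 81 * ((2 * (k:ℝ) + 3) * (2 * k + 1) / ((k:ℝ) + 2) ^ 2) *
          L (wA C θ φ * Er C θ φ k) := by positivity
    have d3 : ((k:ℝ) + 1) * (2 * k + 3) / ((k:ℝ) + 2) ^ 2 *
        (L (muA C φ * Er C θ φ (k + 1)) -
          (2 * (k:ℝ) + 1) / ((k:ℝ) + 1) * L (muA C φ ^ 2 * Er C θ φ k)) =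
        (2 * (k:ℝ) + 3) ^ 2 / ((k:ℝ) + 2) ^ 2 * L (muA C φ * Er C θ φ (k + 1)) -
        (2 * (k:ℝ) + 3) * (2 * k + 1) / ((k:ℝ) + 2) ^ 2 * L (muA C φ ^ 2 * Er C θ φ k) -
        (2 * (k:ℝ) + 3) / ((k:ℝ) + 2) * L (muA C φ * Er C θ φ (k + 1)) := by
      field_simp
      ring
    have d4 : (2 * ((k + 1 : ℕ):ℝ) + 1) / (((k + 1 : ℕ):ℝ) + 1) =
        (2 * (k:ℝ) + 3) / ((k:ℝ) + 2) := by
      push_cast
      congr 1 <;> ring
    rw [d4, show k + 1 + 1 = k + 2 from rfl]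
    linarith

/-- GK7b: the class inequality -/
theorem L_pK_of (hpK : ∀ k : ℕ, 1 ≤ k → ∀ μ t : R, ((k:ℝ) + 1) • pK (k + 1) μ t =
      (2 * (k:ℝ) + 1) • (μ * pK k μ t) - (k:ℝ) • ((μ ^ 2 - (2:ℝ) • t) * pK (k - 1) μ t))
    (hrec : ∀ L : R →ₗ[ℝ] ℝ, IsFun K L → ∀ k : ℕ, 1 ≤ k → OrdC (k + 1) C →
      0 ≤ L (fA C φ ^ (2 * k + 2)) -
        (2 * (k:ℝ) + 1) ^ 2 / ((k:ℝ) + 1) ^ 2 * L (muA C φ * fA C φ ^ (2 * k)) +
        (2 * (k:ℝ) + 1) * (2 * k - 1) / ((k:ℝ) + 1) ^ 2 * L (muA C φ ^ 2 * fA C φ ^ (2 * k - 2)) -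
        32 / 81 * ((2 * (k:ℝ) + 1) * (2 * k - 1) / ((k:ℝ) + 1) ^ 2) *
          L (wA C θ φ * fA C φ ^ (2 * k - 2)))
    (hL : IsFun K L) (h : GoodC C θ) (hφ : ∀ c, φ c ∈ K.P c) {k : ℕ} (ho : OrdC k C) :
    lam k * L (pK k (muA C φ) ((16 / 81 : ℝ) • wA C θ φ)) ≤ L (fA C φ ^ (2 * k)) := by
  have key : 0 ≤ L (Er C θ φ k) := by
    cases k with
    | zero =>
      have h0 : Er C θ φ 0 = 0 := by
        unfold Er
        rw [pK_zero, lam_zero, one_smul, mul_zero, pow_zero, sub_self]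
      rw [h0, map_zero]
    | succ j =>
      obtain ⟨_, a2⟩ := main hpK hrec h hφ j ho L hL
      obtain ⟨b1, _⟩ := main hpK hrec h hφ j ho _
        (Pool.Agent.N169.LS.isFun_mul hL (Pool.Agent.N169.LS.muA_mem (C := C) hφ))
      simp only [LinearMap.coe_comp, Function.comp_apply, LinearMap.mulLeft_apply] at b1
      exact le_trans (by positivity) a2
  unfold Er at key
  rw [map_sub, map_smul, smul_eq_mul] at key
  linarith

end Abs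

end Pool.Agent.N67.LK
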